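import Pool.Agent.V11257.Fr2

/-!
# Ramsey's theorem for pairs does not imply the canonical Ramsey theorem for any number of colours

In the symmetric model with an infinite set `x` of generic sets (of sets of natural numbers) and
all the permutations of it, every relation between two elements of `x` is trivial outside a finite
set. Hence a coloring of the two-element subsets of `x` by finitely many colours is constant on the
complement of a finite set, whereas no infinite subset of `x` has a linear order.
-/

namespace Pool.Agent.Results.MP_5f5b92_lc.RamseyNotCanonicalRamsey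

open FirstOrder FirstOrder.Language
open Pool.Agent.Helper672.Plain (LSet)
open Pool.Agent.H635Amen (ZF)
open Pool.Agent.H310Cards (IsFinite)
open Pool.Agent.V11257F
open Pool.Agent.V11257Z (exists_of_forall)

universe u

/-- There is a model of ZF (and for every model of ZF there is one in the same universe) with a
set `x` such that the canonical Ramsey theorem fails for `x` and Ramsey's theorem for pairs holds
for `x` with any finite set `k` of colours. -/
theorem result : (∃ (N : Type 1) (_ : LSet.Structure N),
      ZF N ∧ ∃ x : N, ¬ CRT x ∧ ∀ k : N, IsFinite k → RT2 x k) ∧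
    ∀ (M : Type u) [LSet.Structure M], ZF M → ∃ (N : Type u) (_ : LSet.Structure N),
      ZF N ∧ ∃ x : N, ¬ CRT x ∧ ∀ k : N, IsFinite k → RT2 x k := by
  refine ⟨exists_of_forall fun M _ hM => ?_, fun M _ hM => ?_⟩
  · obtain ⟨N, i, hN, h⟩ := exists_fr M hM
    exact ⟨N, i, hN, crt_rt2_of h⟩
  · obtain ⟨N, i, hN, h⟩ := exists_fr M hM
    exact ⟨N, i, hN, crt_rt2_of h⟩

end Pool.Agent.Results.MP_5f5b92_lc.RamseyNotCanonicalRamsey
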